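import Mathlib

set_option autoImplicit false

open Set Filter Topology

namespace Pool.Agent.Results.MP_a217de_gt.Polyhedra

/-- The point `p` of `M` is `C_a`-unstable in `M`. -/
def UnstableVia {M : Type} [TopologicalSpace M] (C : Type) [TopologicalSpace C] (a : C) (p : M) :
    Prop :=
  ∃ F : M × C → M, Continuous F ∧ (∀ z : M, F (z, a) = z) ∧
    ∀ (z : M) (c : C), c ≠ a → F (z, c) ≠ p

/-- The point `p` of `M` is pseudo-unstable in `M`: it is `C_a`-unstable in `M` for some
nondegenerate continuum `C` and some `a : C`. -/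
def PseudoUnstable {M : Type} [TopologicalSpace M] (p : M) : Prop :=
  ∃ (C : Type) (_ : MetricSpace C), CompactSpace C ∧ ConnectedSpace C ∧ Nontrivial C ∧
    ∃ a : C, UnstableVia C a p

/-- `X` is (homeomorphic to) the underlying space of a finite simplicial complex. -/
def IsPolyhedron (X : Type) [TopologicalSpace X] : Prop :=
  ∃ (n : ℕ) (K : Geometry.SimplicialComplex ℝ (EuclideanSpace ℝ (Fin n))), K.faces.Finite ∧
    Nonempty (X ≃ₜ K.space)

section Bary

variable {ι : Type} [Fintype ι]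

/-- the support of a point in barycentric coordinates -/
noncomputable def supp (x : ι → ℝ) : Finset ι := Finset.univ.filter (fun i => x i ≠ 0)

theorem mem_supp (x : ι → ℝ) (i : ι) : i ∈ supp x ↔ x i ≠ 0 := by simp [supp]

/-- the realisation of an abstract complex by barycentric coordinates -/
def Re (K : Set (Finset ι)) : Set (ι → ℝ) := {x | (∀ i, 0 ≤ x i) ∧ ∑ i, x i = 1 ∧ supp x ∈ K}

variable {K : Set (Finset ι)} (hK : ∀ s ∈ K, ∀ t : Finset ι, t ⊆ s → t.Nonempty → t ∈ K)

include hK in
theorem mem_of_supp {x y : ι → ℝ} (hx : x ∈ Re K) (hy0 : ∀ i, 0 ≤ y i) (hy1 : ∑ i, y i = 1)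
    (hsub : ∀ i, x i = 0 → y i = 0) : y ∈ Re K := by
  refine ⟨hy0, hy1, hK _ hx.2.2 _ ?_ ?_⟩
  · intro i hi
    rw [mem_supp] at hi ⊢
    exact fun h => hi (hsub i h)
  · by_contra hne
    rw [Finset.not_nonempty_iff_eq_empty] at hne
    have h0 : ∀ i, y i = 0 := by
      intro i
      by_contra h
      have : i ∈ supp y := (mem_supp y i).2 h
      rw [hne] at this
      simp at this
    simp [h0] at hy1

/-- the common part of two points -/
noncomputable def mid (x y : ι → ℝ) : ι → ℝ :=
  fun i => min (x i) (y i) / ∑ j, min (x j) (y j)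

/-- the path from `x` to `y` through their common part -/
noncomputable def path (x y : ι → ℝ) (t : ℝ) : ι → ℝ :=
  x + (min (2 * t) 1) • (mid x y - x) + (max (2 * t - 1) 0) • (y - mid x y)

theorem path_one (x y : ι → ℝ) : path x y 1 = y := by
  unfold path
  norm_num

theorem path_zero (x y : ι → ℝ) : path x y 0 = x := by
  unfold path
  norm_num

theorem sum_min_ge {x y : ι → ℝ} {ε : ℝ} (hxy : ∀ i, |x i - y i| ≤ ε) (hy1 : ∑ i, y i = 1) :
    1 - Fintype.card ι * ε ≤ ∑ j, min (x j) (y j) := by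
  have h1 : ∑ j : ι, (y j - ε) ≤ ∑ j, min (x j) (y j) := by
    apply Finset.sum_le_sum
    intro j _
    have h2 := abs_le.1 (hxy j)
    have hε : 0 ≤ ε := (abs_nonneg _).trans (hxy j)
    apply le_min <;> linarith [h2.1]
  have h2 : ∑ j : ι, (y j - ε) = 1 - Fintype.card ι * ε := by
    rw [Finset.sum_sub_distrib, hy1]
    simp
  linarith

theorem sum_min_le {x y : ι → ℝ} (hy1 : ∑ i, y i = 1) : ∑ j, min (x j) (y j) ≤ 1 := by
  rw [← hy1]
  apply Finset.sum_le_sum
  intro j _
  exact min_le_right _ _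

theorem mid_close {x y : ι → ℝ} {ε : ℝ} (hx0 : ∀ i, 0 ≤ x i) (hy0 : ∀ i, 0 ≤ y i)
    (hy1 : ∑ i, y i = 1) (hxy : ∀ i, |x i - y i| ≤ ε) (hε : Fintype.card ι * ε ≤ 1 / 2)
    (i : ι) : |mid x y i - y i| ≤ (2 * Fintype.card ι + 1) * ε := by
  have hε0 : 0 ≤ ε := (abs_nonneg _).trans (hxy i)
  have hS1 := sum_min_ge hxy hy1
  have hS2 := sum_min_le (x := x) hy1
  set S := ∑ j, min (x j) (y j) with hS
  have hSpos : 0 < S := by linarith
  have hyi1 : y i ≤ 1 := by
    rw [← hy1]
    exact Finset.single_le_sum (fun j _ => hy0 j) (Finset.mem_univ i)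
  have hm0 : 0 ≤ min (x i) (y i) := le_min (hx0 i) (hy0 i)
  have hn : (0 : ℝ) ≤ Fintype.card ι := Nat.cast_nonneg _
  unfold mid
  rw [← hS, abs_le]
  constructor
  · have h1 : min (x i) (y i) ≤ min (x i) (y i) / S := by
      rw [le_div_iff₀ hSpos]
      nlinarith
    have h2 : y i - ε ≤ min (x i) (y i) := by
      have h2 := abs_le.1 (hxy i)
      apply le_min <;> linarith [h2.1]
    nlinarith
  · have h1 : min (x i) (y i) / S ≤ y i + 2 * Fintype.card ι * ε := by
      rw [div_le_iff₀ hSpos]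
      have h3 : min (x i) (y i) ≤ y i := min_le_right _ _
      have h4 : 0 ≤ Fintype.card ι * ε := mul_nonneg hn hε0
      nlinarith [hy0 i, mul_nonneg h4 (hy0 i), mul_nonneg h4 h4]
    nlinarith

theorem path_close {x y : ι → ℝ} {ε : ℝ} (hx0 : ∀ i, 0 ≤ x i) (hy0 : ∀ i, 0 ≤ y i)
    (hy1 : ∑ i, y i = 1) (hxy : ∀ i, |x i - y i| ≤ ε) (hε : Fintype.card ι * ε ≤ 1 / 2)
    {t : ℝ} (ht0 : 0 ≤ t) (ht1 : t ≤ 1) (i : ι) :
    |path x y t i - y i| ≤ (2 * Fintype.card ι + 1) * ε := by
  have hε0 : 0 ≤ ε := (abs_nonneg _).trans (hxy i)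
  have hm := mid_close hx0 hy0 hy1 hxy hε i
  have hn : (0 : ℝ) ≤ Fintype.card ι := Nat.cast_nonneg _
  set a := min (2 * t) 1 with ha
  set b := max (2 * t - 1) 0 with hb
  have ha1 : a ≤ 1 := min_le_right _ _
  have hb0 : 0 ≤ b := le_max_right _ _
  have hba : b ≤ a := by
    rw [ha, hb]
    apply max_le <;> apply le_min <;> linarith
  have h1 : path x y t i - y i = (1 - a) * (x i - y i) + (a - b) * (mid x y i - y i) := by
    unfold path
    simp only [Pi.add_apply, Pi.smul_apply, Pi.sub_apply, smul_eq_mul, ← ha, ← hb]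
    ring
  rw [h1]
  calc |(1 - a) * (x i - y i) + (a - b) * (mid x y i - y i)|
      ≤ |(1 - a) * (x i - y i)| + |(a - b) * (mid x y i - y i)| := abs_add_le _ _
    _ = (1 - a) * |x i - y i| + (a - b) * |mid x y i - y i| := by
        rw [abs_mul, abs_mul, abs_of_nonneg (sub_nonneg.2 ha1), abs_of_nonneg (sub_nonneg.2 hba)]
    _ ≤ (1 - a) * ε + (a - b) * ((2 * Fintype.card ι + 1) * ε) := by
        apply add_le_add
        · exact mul_le_mul_of_nonneg_left (hxy i) (sub_nonneg.2 ha1)
        · exact mul_le_mul_of_nonneg_left hm (sub_nonneg.2 hba)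
    _ ≤ (2 * Fintype.card ι + 1) * ε := by
        have h5 : 0 ≤ Fintype.card ι * ε := mul_nonneg hn hε0
        nlinarith [mul_nonneg hb0 hε0, mul_nonneg hb0 h5, mul_nonneg (sub_nonneg.2 ha1) h5]

include hK in
theorem path_mem {x y : ι → ℝ} (hx : x ∈ Re K) (hy : y ∈ Re K)
    (hS : 0 < ∑ j, min (x j) (y j)) {t : ℝ} (ht0 : 0 ≤ t) (ht1 : t ≤ 1) :
    path x y t ∈ Re K := by
  have hm0 : ∀ i, 0 ≤ mid x y i := by
    intro i
    unfold mid
    exact div_nonneg (le_min (hx.1 i) (hy.1 i)) hS.le
  have hm1 : ∑ i, mid x y i = 1 := by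
    unfold mid
    rw [← Finset.sum_div]
    exact div_self hS.ne'
  have hmx : ∀ i, x i = 0 → mid x y i = 0 := by
    intro i hi
    unfold mid
    rw [hi, min_eq_left (hy.1 i), zero_div]
  have hmy : ∀ i, y i = 0 → mid x y i = 0 := by
    intro i hi
    unfold mid
    rw [hi, min_eq_right (hx.1 i), zero_div]
  rcases le_total t (1 / 2) with ht | ht
  · have h1 : ∀ i, path x y t i = (1 - 2 * t) * x i + (2 * t) * mid x y i := by
      intro i
      unfold path
      rw [min_eq_left (by linarith), max_eq_right (by linarith)]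
      simp only [Pi.add_apply, Pi.smul_apply, Pi.sub_apply, smul_eq_mul]
      ring
    refine mem_of_supp hK hx ?_ ?_ ?_
    · intro i
      rw [h1]
      have := mul_nonneg (show (0:ℝ) ≤ 1 - 2 * t by linarith) (hx.1 i)
      have := mul_nonneg (show (0:ℝ) ≤ 2 * t by linarith) (hm0 i)
      linarith
    · simp only [h1]
      rw [Finset.sum_add_distrib, ← Finset.mul_sum, ← Finset.mul_sum, hx.2.1, hm1]
      ring
    · intro i hi
      rw [h1, hi, hmx i hi]
      ring
  · have h1 : ∀ i, path x y t i = (2 - 2 * t) * mid x y i + (2 * t - 1) * y i := by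
      intro i
      unfold path
      rw [min_eq_right (by linarith), max_eq_left (by linarith)]
      simp only [Pi.add_apply, Pi.smul_apply, Pi.sub_apply, smul_eq_mul]
      ring
    refine mem_of_supp hK hy ?_ ?_ ?_
    · intro i
      rw [h1]
      have := mul_nonneg (show (0:ℝ) ≤ 2 * t - 1 by linarith) (hy.1 i)
      have := mul_nonneg (show (0:ℝ) ≤ 2 - 2 * t by linarith) (hm0 i)
      linarith
    · simp only [h1]
      rw [Finset.sum_add_distrib, ← Finset.mul_sum, ← Finset.mul_sum, hy.2.1, hm1]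
      ring
    · intro i hi
      rw [h1, hi, hmy i hi]
      ring

/-- conical structure near `p` -/
theorem cone_mem {p x : ι → ℝ} (hp : p ∈ Re K) (hx : x ∈ Re K)
    {r0 : ℝ} (hr0 : ∀ i, p i ≠ 0 → r0 ≤ p i) (hxp : ‖x - p‖ < r0) {s : ℝ} (hs : 0 ≤ s)
    (hsx : s * ‖x - p‖ < r0) : p + s • (x - p) ∈ Re K := by
  rcases hs.eq_or_lt with rfl | hs'
  · simpa using hp
  have hcoord : ∀ i, |x i - p i| ≤ ‖x - p‖ := fun i => by
    have := norm_le_pi_norm (x - p) i
    simpa using this
  have hne : ∀ i, p i ≠ 0 → 0 < x i := by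
    intro i hi
    have h1 := (abs_le.1 (hcoord i)).1
    have := hr0 i hi
    linarith
  have hne2 : ∀ i, p i ≠ 0 → 0 < p i + s * (x i - p i) := by
    intro i hi
    have h1 := (abs_le.1 (hcoord i)).1
    have h2 := hr0 i hi
    nlinarith
  have hval : ∀ i, (p + s • (x - p)) i = p i + s * (x i - p i) := fun i => by simp
  refine ⟨?_, ?_, ?_⟩
  · intro i
    rw [hval]
    by_cases hi : p i = 0
    · rw [hi]
      have := mul_nonneg hs (hx.1 i)
      linarith
    · exact (hne2 i hi).le
  · simp only [hval]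
    rw [Finset.sum_add_distrib, ← Finset.mul_sum, Finset.sum_sub_distrib, hp.2.1, hx.2.1]
    ring
  · have : supp (p + s • (x - p)) = supp x := by
      ext i
      rw [mem_supp, mem_supp, hval]
      by_cases hi : p i = 0
      · rw [hi]
        constructor
        · intro h h2
          apply h
          rw [h2]; ring
        · intro h h2
          apply h
          have : s * x i = 0 := by linarith
          rcases mul_eq_zero.1 this with h3 | h3
          · exact absurd h3 hs'.ne'
          · exact h3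
      · exact ⟨fun _ => (hne i hi).ne', fun _ => (hne2 i hi).ne'⟩
    rw [this]
    exact hx.2.2

theorem continuousOn_path {α : Type} [TopologicalSpace α] {s : Set α} {x y : α → ι → ℝ}
    {t : α → ℝ} (hx : ContinuousOn x s) (hy : ContinuousOn y s) (ht : ContinuousOn t s)
    (hS : ∀ a ∈ s, 0 < ∑ j, min (x a j) (y a j)) :
    ContinuousOn (fun a => path (x a) (y a) (t a)) s := by
  have hxi : ∀ i, ContinuousOn (fun a => x a i) s := fun i => (continuousOn_pi.1 hx) i
  have hyi : ∀ i, ContinuousOn (fun a => y a i) s := fun i => (continuousOn_pi.1 hy) i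
  have hmin : ∀ i, ContinuousOn (fun a => min (x a i) (y a i)) s := fun i =>
    (continuous_fst.min continuous_snd).comp_continuousOn ((hxi i).prodMk (hyi i))
  have hsum : ContinuousOn (fun a => ∑ j, min (x a j) (y a j)) s :=
    continuousOn_finsetSum _ fun i _ => hmin i
  have hmid : ContinuousOn (fun a => mid (x a) (y a)) s := by
    rw [continuousOn_pi]
    intro i
    exact (hmin i).div hsum fun a ha => (hS a ha).ne'
  unfold path
  have h1 : ContinuousOn (fun a => min (2 * t a) 1) s :=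
    (show Continuous (fun b : ℝ => min (2 * b) 1) by fun_prop).comp_continuousOn ht
  have h2 : ContinuousOn (fun a => max (2 * t a - 1) 0) s :=
    (show Continuous (fun b : ℝ => max (2 * b - 1) 0) by fun_prop).comp_continuousOn ht
  exact (hx.add (h1.smul (hmid.sub hx))).add (h2.smul (hy.sub hmid))

include hK in
/-- If small neighbourhoods of `p` can be pushed off `p` by arbitrarily small amounts, then `p` is
unstable. -/
theorem local_push (hclosed : IsClosed (Re K)) {p : ι → ℝ} (hp : p ∈ Re K) {r0 r : ℝ}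
    (hr0 : ∀ i, p i ≠ 0 → r0 ≤ p i) (hr : 0 < r) (hrr : 2 * r ≤ r0)
    (hf : ∀ ε : ℝ, 0 < ε → ∃ f : (ι → ℝ) → (ι → ℝ),
      ContinuousOn f (Re K ∩ Metric.closedBall p r) ∧
      ∀ x ∈ Re K ∩ Metric.closedBall p r, f x ∈ Re K ∧ f x ≠ p ∧ ‖f x - x‖ ≤ ε) :
    ∃ G : (ι → ℝ) × ℝ → (ι → ℝ), ContinuousOn G (Re K ×ˢ Icc 0 1) ∧ (∀ z, G (z, 0) = z) ∧
      ∀ z ∈ Re K, ∀ t ∈ Icc (0 : ℝ) 1, G (z, t) ∈ Re K ∧ (t ≠ 0 → G (z, t) ≠ p) := by
  have hn : (0 : ℝ) ≤ Fintype.card ι := Nat.cast_nonneg _
  set n : ℝ := (Fintype.card ι : ℝ) with hndef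
  obtain ⟨ε, hε, hε1, hε2⟩ : ∃ ε : ℝ, 0 < ε ∧ n * ε ≤ 1 / 2 ∧ (2 * n + 1) * ε ≤ r / 4 := by
    refine ⟨min (1 / 2) (r / 4) / (2 * n + 1), by positivity, ?_, ?_⟩
    · have h1 : min (1 / 2) (r / 4) / (2 * n + 1) ≤ (1 / 2) / (2 * n + 1) :=
        div_le_div_of_nonneg_right (min_le_left _ _) (by positivity)
      have h2 : n * ((1 / 2) / (2 * n + 1)) ≤ 1 / 2 := by
        rw [← mul_div_assoc, div_le_iff₀ (by positivity)]
        nlinarith
      exact (mul_le_mul_of_nonneg_left h1 hn).trans h2
    · rw [mul_div_cancel₀ _ (by positivity)]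
      exact min_le_right _ _
  obtain ⟨f, hfc, hf⟩ := hf ε hε
  set δ : ℝ := (2 * n + 1) * ε with hδ
  have hδ0 : 0 ≤ δ := by positivity
  let τ : (ι → ℝ) → ℝ := fun u => max 0 (min 1 (2 * ‖u‖ / r - 1))
  let k : (ι → ℝ) → (ι → ℝ) := fun u => path (f (p + u)) (p + u) (τ u) - (p + u)
  let D1 : Set (ι → ℝ) := {u | p + u ∈ Re K ∧ ‖u‖ ≤ r}
  let D2 : Set (ι → ℝ) := {u | r ≤ ‖u‖}
  have hτ0 : ∀ u, 0 ≤ τ u := fun u => le_max_left _ _
  have hτ1 : ∀ u, τ u ≤ 1 := fun u => max_le zero_le_one (min_le_left _ _)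
  have hmaps : ∀ u ∈ D1, p + u ∈ Re K ∩ Metric.closedBall p r := by
    rintro u ⟨h1, h2⟩
    refine ⟨h1, ?_⟩
    rw [mem_closedBall_iff_norm]
    simpa using h2
  have hcoord : ∀ u ∈ D1, ∀ i, |f (p + u) i - (p + u) i| ≤ ε := by
    intro u hu i
    have h1 := (hf _ (hmaps u hu)).2.2
    have h2 := norm_le_pi_norm (f (p + u) - (p + u)) i
    exact h2.trans h1
  have hSpos : ∀ u ∈ D1, 0 < ∑ j, min (f (p + u) j) ((p + u) j) := by
    intro u hu
    have h1 := sum_min_ge (hcoord u hu) hu.1.2.1
    rw [← hndef] at h1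
    linarith
  have hk2 : ∀ u ∈ D2, k u = 0 := by
    intro u hu
    have h1 : τ u = 1 := by
      have hu' : r ≤ ‖u‖ := hu
      have h2 : (1 : ℝ) ≤ 2 * ‖u‖ / r - 1 := by
        rw [le_sub_iff_add_le, le_div_iff₀ hr]
        linarith
      show max 0 (min 1 (2 * ‖u‖ / r - 1)) = 1
      rw [min_eq_left h2]
      norm_num
    show path (f (p + u)) (p + u) (τ u) - (p + u) = 0
    rw [h1, path_one, sub_self]
  have hkc1 : ContinuousOn k D1 := by
    have hadd : Continuous (fun u : ι → ℝ => p + u) := by fun_prop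
    have h1 : ContinuousOn (fun u => f (p + u)) D1 := hfc.comp hadd.continuousOn hmaps
    have h2 : ContinuousOn τ D1 := by
      have : Continuous τ := by
        show Continuous (fun u : ι → ℝ => max 0 (min 1 (2 * ‖u‖ / r - 1)))
        fun_prop
      exact this.continuousOn
    exact (continuousOn_path h1 hadd.continuousOn h2 hSpos).sub hadd.continuousOn
  have hD1 : IsClosed D1 := by
    have hadd : Continuous (fun u : ι → ℝ => p + u) := by fun_prop
    exact (hclosed.preimage hadd).inter (isClosed_le continuous_norm continuous_const)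
  have hD2 : IsClosed D2 := isClosed_le continuous_const continuous_norm
  have hkc : ContinuousOn k (D1 ∪ D2) := by
    refine hkc1.union_of_isClosed ?_ hD1 hD2
    exact (continuousOn_const (c := (0 : ι → ℝ))).congr hk2
  have hkb : ∀ u ∈ D1 ∪ D2, ‖k u‖ ≤ δ := by
    rintro u (hu | hu)
    · rw [pi_norm_le_iff_of_nonneg hδ0]
      intro i
      have := path_close (t := τ u) (hf _ (hmaps u hu)).1.1 hu.1.1 hu.1.2.1 (hcoord u hu)
        (by rw [← hndef]; exact hε1) (hτ0 u) (hτ1 u) i
      rw [Real.norm_eq_abs]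
      exact this
    · rw [hk2 u hu, norm_zero]
      exact hδ0
  have hgmem : ∀ u ∈ D1, p + u + k u ∈ Re K := by
    intro u hu
    have h1 : p + u + k u = path (f (p + u)) (p + u) (τ u) := by
      show p + u + (path (f (p + u)) (p + u) (τ u) - (p + u)) = _
      abel
    rw [h1]
    exact path_mem hK (hf _ (hmaps u hu)).1 hu.1 (hSpos u hu) (hτ0 u) (hτ1 u)
  have hgne : ∀ u ∈ D1, p + u + k u ≠ p := by
    intro u hu heq
    rcases le_or_gt ‖u‖ (r / 2) with h | h
    · have h1 : τ u = 0 := by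
        have h2 : 2 * ‖u‖ / r - 1 ≤ 0 := by
          rw [sub_nonpos, div_le_iff₀ hr]
          linarith
        show max 0 (min 1 (2 * ‖u‖ / r - 1)) = 0
        rw [max_eq_left]
        exact (min_le_right _ _).trans h2
      have h3 : p + u + k u = f (p + u) := by
        show p + u + (path (f (p + u)) (p + u) (τ u) - (p + u)) = _
        rw [h1, path_zero]
        abel
      rw [h3] at heq
      exact (hf _ (hmaps u hu)).2.1 heq
    · have h2 : k u = -u := by
        have : p + (u + k u) = p + 0 := by rw [← add_assoc, heq, add_zero]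
        have := add_left_cancel this
        exact eq_neg_of_add_eq_zero_right this
      have h3 := hkb u (Or.inl hu)
      rw [h2, norm_neg] at h3
      linarith
  -- the map to `D1 ∪ D2`
  have hΦ : ∀ z ∈ Re K, ∀ t : ℝ, 0 < t → t ≤ 1 →
      t⁻¹ • (z - p) ∈ D2 ∨ (t⁻¹ • (z - p) ∈ D1 ∧ ‖z - p‖ < r0) := by
    intro z hz t ht0 ht1
    rcases le_or_gt r ‖t⁻¹ • (z - p)‖ with h | h
    · exact Or.inl h
    · right
      have h1 : ‖t⁻¹ • (z - p)‖ = t⁻¹ * ‖z - p‖ := by
        rw [norm_smul, Real.norm_eq_abs, abs_of_pos (inv_pos.2 ht0)]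
      rw [h1] at h
      have h2 : ‖z - p‖ ≤ t⁻¹ * ‖z - p‖ := by
        have : 1 ≤ t⁻¹ := (one_le_inv₀ ht0).2 ht1
        nlinarith [norm_nonneg (z - p)]
      have h3 : ‖z - p‖ < r0 := by linarith
      refine ⟨⟨?_, by rw [h1]; exact h.le⟩, h3⟩
      exact cone_mem hp hz hr0 h3 (inv_pos.2 ht0).le (by linarith)
  let G : (ι → ℝ) × ℝ → (ι → ℝ) := fun q => q.1 + q.2 • k (q.2⁻¹ • (q.1 - p))
  refine ⟨G, ?_, ?_, ?_⟩
  · apply ContinuousOn.add continuousOn_fst
    rintro ⟨z, t⟩ ⟨hz, ht0, ht1⟩
    rcases ht0.eq_or_lt with h | h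
    · -- at time zero
      have h0 : t = 0 := h.symm
      subst h0
      have h1 : (fun q : (ι → ℝ) × ℝ => q.2 • k (q.2⁻¹ • (q.1 - p))) (z, (0 : ℝ)) = 0 := by simp
      unfold ContinuousWithinAt
      rw [h1]
      have hb : ∀ᶠ q : (ι → ℝ) × ℝ in 𝓝[Re K ×ˢ Icc 0 1] (z, 0),
          ‖q.2 • k (q.2⁻¹ • (q.1 - p))‖ ≤ |q.2| * δ := by
        filter_upwards [self_mem_nhdsWithin] with q hq
        rw [norm_smul, Real.norm_eq_abs]
        rcases (show (0:ℝ) ≤ q.2 from hq.2.1).eq_or_lt with h2 | h2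
        · rw [← h2]; simp
        · apply mul_le_mul_of_nonneg_left _ (abs_nonneg _)
          apply hkb
          rcases hΦ q.1 hq.1 q.2 h2 hq.2.2 with h3 | h3
          · exact Or.inr h3
          · exact Or.inl h3.1
      refine squeeze_zero_norm' hb ?_
      have : Tendsto (fun q : (ι → ℝ) × ℝ => |q.2| * δ) (𝓝 (z, 0)) (𝓝 (|(0:ℝ)| * δ)) := by
        apply Continuous.tendsto (f := fun q : (ι → ℝ) × ℝ => |q.2| * δ)
        fun_prop
      simp only [abs_zero, zero_mul] at this
      exact this.mono_left nhdsWithin_le_nhds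
    · -- at positive time
      have hS : ContinuousOn (fun q : (ι → ℝ) × ℝ => q.2 • k (q.2⁻¹ • (q.1 - p)))
          (Re K ×ˢ Ioc 0 1) := by
        have hin : ContinuousOn (fun q : (ι → ℝ) × ℝ => q.2⁻¹ • (q.1 - p)) (Re K ×ˢ Ioc 0 1) := by
          have h1 : ContinuousOn (fun q : (ι → ℝ) × ℝ => q.2⁻¹) (Re K ×ˢ Ioc 0 1) :=
            continuousOn_snd.inv₀ fun q hq => (show (0:ℝ) < q.2 from hq.2.1).ne'
          have h2 : Continuous (fun q : (ι → ℝ) × ℝ => q.1 - p) := by fun_prop
          exact h1.smul h2.continuousOn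
        apply continuousOn_snd.smul
        refine hkc.comp hin ?_
        · rintro q ⟨hq1, hq2⟩
          rcases hΦ q.1 hq1 q.2 hq2.1 hq2.2 with h3 | h3
          · exact Or.inr h3
          · exact Or.inl h3.1
      have h2 : ContinuousWithinAt (fun q : (ι → ℝ) × ℝ => q.2 • k (q.2⁻¹ • (q.1 - p)))
          (Re K ×ˢ Ioc 0 1) (z, t) := hS (z, t) ⟨hz, h, ht1⟩
      refine h2.mono_of_mem_nhdsWithin ?_
      have h3 : {q : (ι → ℝ) × ℝ | 0 < q.2} ∈ 𝓝 (z, t) :=
        (isOpen_lt continuous_const continuous_snd).mem_nhds h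
      filter_upwards [self_mem_nhdsWithin, mem_nhdsWithin_of_mem_nhds h3] with q hq1 hq2
      exact ⟨hq1.1, hq2, hq1.2.2⟩
  · intro z
    simp [G]
  · intro z hz t ht
    rcases (show (0:ℝ) ≤ t from ht.1).eq_or_lt with h | h
    · subst h
      refine ⟨?_, fun h => absurd rfl h⟩
      have : G (z, 0) = z := by simp [G]
      rw [this]
      exact hz
    · rcases hΦ z hz t h ht.2 with h2 | ⟨h2, h3⟩
      · have h4 : G (z, t) = z := by
          show z + t • k (t⁻¹ • (z - p)) = z
          rw [hk2 _ h2, smul_zero, add_zero]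
        rw [h4]
        refine ⟨hz, fun _ hzp => ?_⟩
        have h5 : r ≤ ‖t⁻¹ • (z - p)‖ := h2
        rw [hzp, sub_self, smul_zero, norm_zero] at h5
        linarith
      · set u := t⁻¹ • (z - p) with hu
        have h4 : G (z, t) = p + t • ((p + u + k u) - p) := by
          show z + t • k u = _
          have : z = p + t • u := by
            rw [hu, smul_smul, mul_inv_cancel₀ h.ne', one_smul]
            abel
          rw [this]
          module
        have h5 : ‖(p + u + k u) - p‖ ≤ r + r / 4 := by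
          have : (p + u + k u) - p = u + k u := by abel
          rw [this]
          exact (norm_add_le _ _).trans (add_le_add h2.2 ((hkb u (Or.inl h2)).trans hε2))
        rw [h4]
        constructor
        · refine cone_mem hp (hgmem u h2) hr0 (by linarith) h.le ?_
          have : t * ‖(p + u + k u) - p‖ ≤ 1 * ‖(p + u + k u) - p‖ :=
            mul_le_mul_of_nonneg_right ht.2 (norm_nonneg _)
          linarith
        · intro _ h6
          have h7 : t • ((p + u + k u) - p) = 0 := by
            have : p + t • ((p + u + k u) - p) = p + 0 := by rw [h6, add_zero]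
            exact add_left_cancel this
          rcases smul_eq_zero.1 h7 with h8 | h8
          · exact h.ne' h8
          · exact hgne u h2 (sub_eq_zero.1 h8)

include hK in
theorem isClosed_Re : IsClosed (Re K) := by
  have h : Re K = ⋃ s ∈ K, {x : ι → ℝ | (∀ i, 0 ≤ x i) ∧ ∑ i, x i = 1 ∧ ∀ i, i ∉ s → x i = 0} := by
    ext x
    simp only [mem_iUnion, mem_ofPred_eq, exists_prop]
    constructor
    · intro hx
      refine ⟨supp x, hx.2.2, hx.1, hx.2.1, ?_⟩
      intro i hi
      rw [mem_supp, not_not] at hi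
      exact hi
    · rintro ⟨s, hs, h0, h1, h2⟩
      refine ⟨h0, h1, hK s hs _ ?_ ?_⟩
      · intro i hi
        rw [mem_supp] at hi
        by_contra hc
        exact hi (h2 i hc)
      · by_contra hne
        rw [Finset.not_nonempty_iff_eq_empty] at hne
        have h0 : ∀ i, x i = 0 := by
          intro i
          by_contra h
          have : i ∈ supp x := (mem_supp x i).2 h
          rw [hne] at this
          simp at this
        simp [h0] at h1
  rw [h]
  classical
  refine Set.Finite.isClosed_biUnion (Set.toFinite K) fun s _ => ?_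
  have h1 : IsClosed {x : ι → ℝ | ∀ i, 0 ≤ x i} := by
    rw [ofPred_forall]
    exact isClosed_iInter fun i => isClosed_le continuous_const (continuous_apply i)
  have h2 : IsClosed {x : ι → ℝ | ∑ i, x i = 1} :=
    isClosed_eq (continuous_finsetSum _ fun i _ => continuous_apply i) continuous_const
  have h3 : IsClosed {x : ι → ℝ | ∀ i, i ∉ s → x i = 0} := by
    rw [ofPred_forall]
    refine isClosed_iInter fun i => ?_
    by_cases hi : i ∈ s
    · have : {x : ι → ℝ | i ∉ s → x i = 0} = univ := by ext; simp [hi]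
      rw [this]
      exact isClosed_univ
    · have : {x : ι → ℝ | i ∉ s → x i = 0} = {x | x i = 0} := by ext; simp [hi]
      rw [this]
      exact isClosed_eq (continuous_apply i) continuous_const
  exact h1.inter (h2.inter h3)

include hK in
theorem isCompact_Re : IsCompact (Re K) := by
  refine (isCompact_Icc (a := (0 : ι → ℝ)) (b := 1)).of_isClosed_subset (isClosed_Re hK) ?_
  intro x hx
  refine ⟨hx.1, fun i => ?_⟩
  show x i ≤ 1
  rw [← hx.2.1]
  exact Finset.single_le_sum (fun j _ => hx.1 j) (Finset.mem_univ i)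

end Bary

/-- A finite geometric simplicial complex is homeomorphic to a realisation by barycentric
coordinates. -/
theorem bary_model {n : ℕ} (L : Geometry.SimplicialComplex ℝ (EuclideanSpace ℝ (Fin n)))
    (hfin : L.faces.Finite) :
    ∃ (ι : Type) (_ : Fintype ι) (K : Set (Finset ι)),
      (∀ s ∈ K, ∀ t : Finset ι, t ⊆ s → t.Nonempty → t ∈ K) ∧ Nonempty (L.space ≃ₜ Re K) := by
  classical
  let V : Finset (EuclideanSpace ℝ (Fin n)) := hfin.toFinset.biUnion id
  have hV : ∀ s ∈ L.faces, s ⊆ V := by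
    intro s hs v hv
    exact Finset.mem_biUnion.2 ⟨s, by simpa using hs, hv⟩
  let ι : Type := {v : EuclideanSpace ℝ (Fin n) // v ∈ V}
  let im : Finset ι → Finset (EuclideanSpace ℝ (Fin n)) := fun s =>
    s.map (Function.Embedding.subtype _)
  let K : Set (Finset ι) := {s | im s ∈ L.faces}
  have hK : ∀ s ∈ K, ∀ t : Finset ι, t ⊆ s → t.Nonempty → t ∈ K := by
    intro s hs t hts htn
    refine L.down_closed hs ?_ ?_
    · exact Finset.map_subset_map.2 hts
    · exact Finset.map_nonempty.2 htn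
  refine ⟨ι, inferInstance, K, hK, ?_⟩
  let φ : (ι → ℝ) → EuclideanSpace ℝ (Fin n) := fun x => ∑ i, x i • (i : EuclideanSpace ℝ (Fin n))
  have hφ : Continuous φ := by
    apply continuous_finsetSum
    intro i _
    exact (continuous_apply i).smul continuous_const
  -- values
  have hval : ∀ x : ι → ℝ, φ x = ∑ v ∈ im (supp x),
      (if h : v ∈ V then x ⟨v, h⟩ else 0) • v := by
    intro x
    show ∑ i, x i • (i : EuclideanSpace ℝ (Fin n)) = _
    rw [Finset.sum_map]
    symm
    apply Finset.sum_subset_zero_on_sdiff (Finset.subset_univ _)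
    · intro i hi
      have : x i = 0 := by
        by_contra h
        exact (Finset.mem_sdiff.1 hi).2 ((mem_supp x i).2 h)
      rw [this, zero_smul]
    · intro i hi
      simp
  have hsum : ∀ x : ι → ℝ, ∑ i, x i = ∑ v ∈ im (supp x), (if h : v ∈ V then x ⟨v, h⟩ else 0) := by
    intro x
    rw [Finset.sum_map]
    symm
    apply Finset.sum_subset_zero_on_sdiff (Finset.subset_univ _)
    · intro i hi
      by_contra h
      exact (Finset.mem_sdiff.1 hi).2 ((mem_supp x i).2 h)
    · intro i hi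
      simp
  have hhull : ∀ x ∈ Re K, φ x ∈ convexHull ℝ (im (supp x) : Set (EuclideanSpace ℝ (Fin n))) := by
    intro x hx
    rw [Finset.mem_convexHull']
    refine ⟨fun v => if h : v ∈ V then x ⟨v, h⟩ else 0, ?_, ?_, ?_⟩
    · intro v _
      by_cases h : v ∈ V
      · simp only [h, dite_true]
        exact hx.1 _
      · simp [h]
    · rw [← hsum]; exact hx.2.1
    · rw [← hval]
  -- a point in barycentric coordinates from weights on a set
  have hmk : ∀ (s : Finset (EuclideanSpace ℝ (Fin n))) (w : EuclideanSpace ℝ (Fin n) → ℝ),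
      s ⊆ V → (∑ v ∈ s, w v • v = φ (fun i => if (i : EuclideanSpace ℝ (Fin n)) ∈ s then w i else 0))
        ∧ (∑ v ∈ s, w v = ∑ i : ι, (if (i : EuclideanSpace ℝ (Fin n)) ∈ s then w i else 0)) := by
    intro s w hs
    constructor
    · have h1 : ∑ v ∈ V, (if v ∈ s then w v else 0) • v = ∑ v ∈ s, w v • v := by
        symm
        rw [← Finset.sum_subset hs]
        · apply Finset.sum_congr rfl
          intro v hv
          rw [if_pos hv]
        · intro v _ hv
          rw [if_neg hv, zero_smul]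
      rw [← h1]
      exact (Finset.sum_coe_sort V (fun v => (if v ∈ s then w v else 0) • v)).symm
    · have h1 : ∑ v ∈ V, (if v ∈ s then w v else 0) = ∑ v ∈ s, w v := by
        symm
        rw [← Finset.sum_subset hs]
        · apply Finset.sum_congr rfl
          intro v hv
          rw [if_pos hv]
        · intro v _ hv
          rw [if_neg hv]
      rw [← h1]
      exact (Finset.sum_coe_sort V (fun v => (if v ∈ s then w v else 0))).symm
  have himV : ∀ t : Finset ι, im t ⊆ V := by
    intro t v hv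
    obtain ⟨i, _, rfl⟩ := Finset.mem_map.1 hv
    exact i.2
  have hmem_im : ∀ (t : Finset ι) (i : ι), (i : EuclideanSpace ℝ (Fin n)) ∈ im t ↔ i ∈ t := by
    intro t i
    show _ ∈ t.map _ ↔ _
    rw [Finset.mem_map]
    constructor
    · rintro ⟨j, hj, hji⟩
      have : j = i := Subtype.ext hji
      exact this ▸ hj
    · intro hi
      exact ⟨i, hi, rfl⟩
  -- uniqueness of the coordinates on a face
  have huniq : ∀ t : Finset ι, im t ∈ L.faces → ∀ x z : ι → ℝ, (∀ i, i ∉ t → x i = 0) →
      (∀ i, i ∉ t → z i = 0) → ∑ i, x i = 1 → ∑ i, z i = 1 → φ x = φ z → x = z := by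
    intro t ht x z hx hz hx1 hz1 hxz
    have hind := (affineIndependent_iff.1 (L.indep ht))
      Finset.univ (fun v => x ⟨v.1, himV t v.2⟩ - z ⟨v.1, himV t v.2⟩) ?_ ?_
    · ext i
      by_cases hi : i ∈ t
      · have := hind ⟨i, (hmem_im t i).2 hi⟩ (Finset.mem_univ _)
        exact sub_eq_zero.1 this
      · rw [hx i hi, hz i hi]
    · have h1 := Finset.sum_coe_sort (im t) (fun v => if h : v ∈ V then x ⟨v, h⟩ - z ⟨v, h⟩ else 0)
      have h2 : ∑ v ∈ im t, (if h : v ∈ V then x ⟨v, h⟩ - z ⟨v, h⟩ else 0) =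
          ∑ i ∈ t, (x i - z i) := by
        rw [Finset.sum_map]
        apply Finset.sum_congr rfl
        intro i _
        simp
      have h3 : ∑ i ∈ t, (x i - z i) = ∑ i, (x i - z i) := by
        apply Finset.sum_subset (Finset.subset_univ _)
        intro i _ hi
        rw [hx i hi, hz i hi, sub_zero]
      have h0 : ∑ i, (x i - z i) = 0 := by
        rw [Finset.sum_sub_distrib, hx1, hz1, sub_self]
      rw [h0] at h3
      rw [← h3, ← h2, ← h1]
      apply Finset.sum_congr rfl
      intro v _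
      rw [dif_pos (himV t v.2)]
    · have h1 := Finset.sum_coe_sort (im t)
        (fun v => (if h : v ∈ V then x ⟨v, h⟩ - z ⟨v, h⟩ else 0) • v)
      have h2 : ∑ v ∈ im t, (if h : v ∈ V then x ⟨v, h⟩ - z ⟨v, h⟩ else 0) • v =
          ∑ i ∈ t, (x i - z i) • (i : EuclideanSpace ℝ (Fin n)) := by
        rw [Finset.sum_map]
        apply Finset.sum_congr rfl
        intro i _
        simp
      have h3 : ∑ i ∈ t, (x i - z i) • (i : EuclideanSpace ℝ (Fin n)) =
          ∑ i, (x i - z i) • (i : EuclideanSpace ℝ (Fin n)) := by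
        apply Finset.sum_subset (Finset.subset_univ _)
        intro i _ hi
        rw [hx i hi, hz i hi, sub_zero, zero_smul]
      have h4 : ∑ i, (x i - z i) • (i : EuclideanSpace ℝ (Fin n)) = φ x - φ z := by
        show _ = ∑ i, x i • (i : EuclideanSpace ℝ (Fin n)) - ∑ i, z i • (i : EuclideanSpace ℝ (Fin n))
        rw [← Finset.sum_sub_distrib]
        apply Finset.sum_congr rfl
        intro i _
        rw [sub_smul]
      rw [hxz, sub_self] at h4
      rw [← h4, ← h3, ← h2, ← h1]
      apply Finset.sum_congr rfl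
      intro v _
      rw [dif_pos (himV t v.2)]
  have hmaps : ∀ x ∈ Re K, φ x ∈ L.space := by
    intro x hx
    exact L.convexHull_subset_space hx.2.2 (hhull x hx)
  have hinj : ∀ x ∈ Re K, ∀ y ∈ Re K, φ x = φ y → x = y := by
    intro x hx y hy hxy
    have h1 : φ x ∈ convexHull ℝ ((im (supp x) : Set (EuclideanSpace ℝ (Fin n))) ∩
        (im (supp y) : Set (EuclideanSpace ℝ (Fin n)))) :=
      L.inter_subset_convexHull hx.2.2 hy.2.2 ⟨hhull x hx, hxy ▸ hhull y hy⟩
    rw [← Finset.coe_inter, Finset.mem_convexHull'] at h1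
    obtain ⟨w, hw0, hw1, hw2⟩ := h1
    have hsub : im (supp x) ∩ im (supp y) ⊆ V := Finset.inter_subset_left.trans (himV _)
    obtain ⟨h2, h3⟩ := hmk _ w hsub
    set z : ι → ℝ := fun i =>
      if (i : EuclideanSpace ℝ (Fin n)) ∈ im (supp x) ∩ im (supp y) then w i else 0 with hz
    have hz1 : ∑ i, z i = 1 := by rw [← h3, hw1]
    have hφz : φ z = φ x := by rw [← h2, hw2]
    have hx0 : ∀ i, i ∉ supp x → x i = 0 := fun i hi => by rwa [mem_supp, not_not] at hi
    have hy0 : ∀ i, i ∉ supp y → y i = 0 := fun i hi => by rwa [mem_supp, not_not] at hi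
    have h4 : x = z := by
      refine huniq (supp x) hx.2.2 x z hx0 ?_ hx.2.1 hz1 hφz.symm
      intro i hi
      rw [hz]
      apply if_neg
      intro h
      exact hi ((hmem_im _ _).1 (Finset.mem_inter.1 h).1)
    have h5 : y = z := by
      refine huniq (supp y) hy.2.2 y z hy0 ?_ hy.2.1 hz1 (by rw [hφz, hxy])
      intro i hi
      rw [hz]
      apply if_neg
      intro h
      exact hi ((hmem_im _ _).1 (Finset.mem_inter.1 h).2)
    rw [h4, h5]
  have hsurj : ∀ v ∈ L.space, ∃ x ∈ Re K, φ x = v := by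
    intro v hv
    obtain ⟨s, hs, hvs⟩ := Geometry.SimplicialComplex.mem_space_iff.1 hv
    rw [Finset.mem_convexHull'] at hvs
    obtain ⟨w, hw0, hw1, hw2⟩ := hvs
    obtain ⟨h2, h3⟩ := hmk s w (hV s hs)
    refine ⟨_, ⟨?_, ?_, ?_⟩, by rw [← h2, hw2]⟩
    · intro i
      show 0 ≤ (if (i : EuclideanSpace ℝ (Fin n)) ∈ s then w i else 0)
      split_ifs with h
      · exact hw0 _ h
      · exact le_rfl
    · rw [← h3, hw1]
    · refine L.down_closed hs ?_ ?_
      · intro u hu
        obtain ⟨i, hi, rfl⟩ := Finset.mem_map.1 hu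
        rw [mem_supp] at hi
        by_contra hc
        exact hi (if_neg hc)
      · rw [Finset.map_nonempty]
        by_contra hne
        rw [Finset.not_nonempty_iff_eq_empty] at hne
        have h0 : ∀ i : ι, (if (i : EuclideanSpace ℝ (Fin n)) ∈ s then w i else 0) = 0 := by
          intro i
          by_contra h
          have h5 : i ∈ supp (fun i : ι => if (i : EuclideanSpace ℝ (Fin n)) ∈ s then w i else 0) :=
            (mem_supp _ i).2 h
          rw [hne] at h5
          simp at h5
        rw [h3] at hw1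
        simp only [h0, Finset.sum_const_zero] at hw1
        exact zero_ne_one hw1
  have hcs : CompactSpace (Re K) := isCompact_iff_compactSpace.1 (isCompact_Re hK)
  let g : Re K → L.space := fun x => ⟨φ x.1, hmaps x.1 x.2⟩
  have hg : Continuous g := (hφ.comp continuous_subtype_val).subtype_mk _
  have hbij : Function.Bijective g := by
    constructor
    · intro x y hxy
      exact Subtype.ext (hinj x.1 x.2 y.1 y.2 (congrArg Subtype.val hxy))
    · rintro ⟨v, hv⟩
      obtain ⟨x, hx, hxv⟩ := hsurj v hv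
      exact ⟨⟨x, hx⟩, Subtype.ext hxv⟩
  exact ⟨(hg.homeoOfEquivCompactToT2 (f := Equiv.ofBijective g hbij)).symm⟩

/-- Main statement in barycentric coordinates. -/
theorem transfer {X Y : Type} [TopologicalSpace X] [TopologicalSpace Y]
    {ι : Type} [Fintype ι] {K : Set (Finset ι)}
    (hK : ∀ s ∈ K, ∀ t : Finset ι, t ⊆ s → t.Nonempty → t ∈ K) (e : Y ≃ₜ Re K)
    (x : X) (y : Y) (U : Set X) (V : Set Y) (hU : U ∈ 𝓝 x) (hV : V ∈ 𝓝 y) (h : U ≃ₜ V)
    (hxy : (h ⟨x, mem_of_mem_nhds hU⟩ : Y) = y) (hx : PseudoUnstable x) :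
    UnstableVia unitInterval 0 y := by
  classical
  obtain ⟨C, mC, hC1, hC2, hC3, a, F, hF, hFa, hFp⟩ := hx
  set p : ι → ℝ := (e y).1 with hp
  have hpK : p ∈ Re K := (e y).2
  -- the maps as functions on the whole spaces
  let hu : X → Y := fun b => if hb : b ∈ U then (h ⟨b, hb⟩ : Y) else y
  let hv : Y → X := fun b => if hb : b ∈ V then (h.symm ⟨b, hb⟩ : X) else x
  have hu_eq : ∀ (b : X) (hb : b ∈ U), hu b = h ⟨b, hb⟩ := fun b hb => dif_pos hb
  have hv_eq : ∀ (b : Y) (hb : b ∈ V), hv b = h.symm ⟨b, hb⟩ := fun b hb => dif_pos hb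
  have hv_mem : ∀ b ∈ V, hv b ∈ U := fun b hb => by rw [hv_eq b hb]; exact (h.symm ⟨b, hb⟩).2
  have hu_hv : ∀ b ∈ V, hu (hv b) = b := by
    intro b hb
    rw [hu_eq _ (hv_mem b hb)]
    have : (⟨hv b, hv_mem b hb⟩ : U) = h.symm ⟨b, hb⟩ := Subtype.ext (hv_eq b hb)
    rw [this, h.apply_symm_apply]
  have hux : hu x = y := by rw [hu_eq x (mem_of_mem_nhds hU)]; exact hxy
  have hu_inj : ∀ b ∈ U, hu b = y → b = x := by
    intro b hb hby
    rw [hu_eq b hb, ← hxy] at hby
    have := h.injective (Subtype.ext hby)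
    exact congrArg Subtype.val this
  have hvy : hv y = x := by
    apply hu_inj _ (hv_mem y (mem_of_mem_nhds hV))
    exact hu_hv y (mem_of_mem_nhds hV)
  have hu_cont : ContinuousOn hu U := by
    rw [continuousOn_iff_continuous_domRestrict]
    have : U.domRestrict hu = fun b : U => (h b : Y) := by
      funext b
      exact hu_eq b.1 b.2
    rw [this]
    exact continuous_subtype_val.comp h.continuous
  have hv_cont : ContinuousOn hv V := by
    rw [continuousOn_iff_continuous_domRestrict]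
    have : V.domRestrict hv = fun b : V => (h.symm b : X) := by
      funext b
      exact hv_eq b.1 b.2
    rw [this]
    exact continuous_subtype_val.comp h.symm.continuous
  -- the map from the model
  let E : Re K → Y := fun w => e.symm w
  have hE : Continuous E := e.symm.continuous
  have hEp : E ⟨p, hpK⟩ = y := by
    show e.symm (e y) = y
    exact e.symm_apply_apply y
  -- choice of the radius
  have hW : ∀ᶠ w : Re K in 𝓝 ⟨p, hpK⟩, E w ∈ V ∧ hv (E w) ∈ interior U := by
    have h1 : ContinuousAt E ⟨p, hpK⟩ := hE.continuousAt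
    have h2 : ContinuousAt hv (E ⟨p, hpK⟩) := by
      rw [hEp]
      exact hv_cont.continuousAt hV
    have h3 : ContinuousAt (fun w => hv (E w)) ⟨p, hpK⟩ := ContinuousAt.comp h2 h1
    have h4 : interior U ∈ 𝓝 (hv (E ⟨p, hpK⟩)) := by
      rw [hEp, hvy]
      exact interior_mem_nhds.2 hU
    have h5 : V ∈ 𝓝 (E ⟨p, hpK⟩) := by rw [hEp]; exact hV
    have h6 : ∀ᶠ w : Re K in 𝓝 ⟨p, hpK⟩, E w ∈ V := h1.eventually h5
    have h7 : ∀ᶠ w : Re K in 𝓝 ⟨p, hpK⟩, hv (E w) ∈ interior U := h3.eventually h4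
    exact h6.and h7
  obtain ⟨r1, hr1, hball⟩ := Metric.eventually_nhds_iff.1 hW
  obtain ⟨r0, hr0, hr0p⟩ : ∃ r0 : ℝ, 0 < r0 ∧ ∀ i, p i ≠ 0 → r0 ≤ p i := by
    have hne : (supp p).Nonempty := by
      by_contra hne
      rw [Finset.not_nonempty_iff_eq_empty] at hne
      have h0 : ∀ i, p i = 0 := by
        intro i
        by_contra h
        have : i ∈ supp p := (mem_supp p i).2 h
        rw [hne] at this
        simp at this
      have := hpK.2.1
      simp [h0] at this
    refine ⟨(supp p).inf' hne p, ?_, ?_⟩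
    · rw [Finset.lt_inf'_iff]
      intro i hi
      exact lt_of_le_of_ne (hpK.1 i) (Ne.symm ((mem_supp p i).1 hi))
    · intro i hi
      exact Finset.inf'_le _ ((mem_supp p i).2 hi)
  set r : ℝ := min (r1 / 2) (r0 / 2) with hr
  have hrpos : 0 < r := lt_min (by positivity) (by positivity)
  have hrr : 2 * r ≤ r0 := by
    have := min_le_right (r1 / 2) (r0 / 2)
    rw [hr]
    linarith
  have hrr1 : r < r1 := by
    have := min_le_left (r1 / 2) (r0 / 2)
    rw [hr]
    linarith
  let B : Set (ι → ℝ) := Re K ∩ Metric.closedBall p r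
  have hBc : IsCompact B := (isCompact_Re hK).inter_right Metric.isClosed_closedBall
  have hBcs : CompactSpace B := isCompact_iff_compactSpace.1 hBc
  have hBW : ∀ w : B, E ⟨w.1, w.2.1⟩ ∈ V ∧ hv (E ⟨w.1, w.2.1⟩) ∈ interior U := by
    intro w
    apply hball
    rw [Subtype.dist_eq]
    have : dist w.1 p ≤ r := w.2.2
    exact this.trans_lt hrr1
  -- the pushed map
  let EB : B → Y := fun w => E ⟨w.1, w.2.1⟩
  have hEB : Continuous EB := hE.comp (continuous_subtype_val.subtype_mk _)
  let Q : C × B → X := fun q => F (hv (EB q.2), q.1)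
  have hvEB : Continuous fun w : B => hv (EB w) := by
    have h1 : ContinuousOn hv V := hv_cont
    exact h1.comp_continuous hEB fun w => (hBW w).1
  have hQ : Continuous Q := hF.comp ((hvEB.comp continuous_snd).prodMk continuous_fst)
  have hQa : ∀ w : B, Q (a, w) = hv (EB w) := fun w => hFa _
  let P : C × B → (ι → ℝ) := fun q => (e (hu (Q q))).1
  have hPcont : ∀ q : C × B, Q q ∈ interior U → ContinuousAt P q := by
    intro q hq
    have h1 : ContinuousAt hu (Q q) := hu_cont.continuousAt (mem_interior_iff_mem_nhds.1 hq)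
    have h2 : ContinuousAt (fun q => hu (Q q)) q := ContinuousAt.comp h1 hQ.continuousAt
    have h3 : Continuous fun b : Y => (e b).1 := continuous_subtype_val.comp e.continuous
    exact h3.continuousAt.comp h2
  have hPa : ∀ w : B, P (a, w) = w.1 := by
    intro w
    show (e (hu (Q (a, w)))).1 = w.1
    rw [hQa, hu_hv _ (hBW w).1]
    show (e (e.symm ⟨w.1, w.2.1⟩)).1 = w.1
    rw [e.apply_symm_apply]
  have key : ∀ ε : ℝ, 0 < ε → ∃ f : (ι → ℝ) → (ι → ℝ),
      ContinuousOn f (Re K ∩ Metric.closedBall p r) ∧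
      ∀ w ∈ Re K ∩ Metric.closedBall p r, f w ∈ Re K ∧ f w ≠ p ∧ ‖f w - w‖ ≤ ε := by
    intro ε hε
    have h1 : ∀ᶠ c in 𝓝 a, ∀ w ∈ (univ : Set B), Q (c, w) ∈ interior U ∧ dist (P (c, w)) w.1 < ε := by
      refine isCompact_univ.eventually_forall_of_forall_eventually ?_
      intro w _
      have h2 : Q (a, w) ∈ interior U := by rw [hQa]; exact (hBW w).2
      have h3 : ∀ᶠ q : C × B in 𝓝 (a, w), Q q ∈ interior U :=
        hQ.continuousAt (isOpen_interior.mem_nhds h2)
      have h4 : ContinuousAt (fun q : C × B => dist (P q) q.2.1) (a, w) :=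
        (hPcont _ h2).dist (continuous_subtype_val.comp continuous_snd).continuousAt
      have h5 : ∀ᶠ q : C × B in 𝓝 (a, w), dist (P q) q.2.1 < ε := by
        have h6 : dist (P (a, w)) w.1 < ε := by
          rw [hPa, dist_self]
          exact hε
        exact h4.eventually (Iio_mem_nhds h6)
      exact h3.and h5
    have hne : (𝓝[≠] a).NeBot := inferInstance
    obtain ⟨c, hc, hca⟩ := ((h1.filter_mono nhdsWithin_le_nhds).and
      (self_mem_nhdsWithin : {a}ᶜ ∈ 𝓝[≠] a)).exists
    let f : (ι → ℝ) → (ι → ℝ) := fun w => if hw : w ∈ B then P (c, ⟨w, hw⟩) else w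
    have hfB : ∀ (w : ι → ℝ) (hw : w ∈ B), f w = P (c, ⟨w, hw⟩) := fun w hw => dif_pos hw
    refine ⟨f, ?_, ?_⟩
    · rw [continuousOn_iff_continuous_domRestrict]
      have h2 : B.domRestrict f = fun w : B => P (c, w) := by
        funext w
        exact hfB w.1 w.2
      show Continuous (B.domRestrict f)
      rw [h2]
      rw [continuous_iff_continuousAt]
      intro w
      have h3 : ContinuousAt (fun w : B => (c, w)) w := by fun_prop
      exact ContinuousAt.comp (f := fun w : B => (c, w)) (hPcont (c, w) (hc w (mem_univ _)).1) h3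
    · intro w hw
      rw [hfB w hw]
      refine ⟨(e _).2, ?_, ?_⟩
      · intro hpp
        have h3 : e (hu (Q (c, ⟨w, hw⟩))) = e y := Subtype.ext hpp
        have h4 := e.injective h3
        have h5 := hu_inj _ (interior_subset (hc ⟨w, hw⟩ (mem_univ _)).1) h4
        exact hFp _ c hca h5
      · rw [← dist_eq_norm]
        exact (hc ⟨w, hw⟩ (mem_univ _)).2.le
  obtain ⟨G, hGc, hG0, hG⟩ := local_push hK (isClosed_Re hK) hpK hr0p hrpos hrr key
  have hmem : ∀ q : Y × unitInterval, G ((e q.1).1, (q.2 : ℝ)) ∈ Re K := fun q =>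
    (hG _ (e q.1).2 _ q.2.2).1
  refine ⟨fun q => e.symm ⟨G ((e q.1).1, (q.2 : ℝ)), hmem q⟩, ?_, ?_, ?_⟩
  · apply e.symm.continuous.comp
    apply Continuous.subtype_mk
    refine hGc.comp_continuous ?_ ?_
    · exact ((continuous_subtype_val.comp e.continuous).comp continuous_fst).prodMk
        (continuous_subtype_val.comp continuous_snd)
    · intro q
      exact ⟨(e q.1).2, q.2.2⟩
  · intro z
    have : (⟨G ((e z).1, ((0 : unitInterval) : ℝ)), hmem (z, 0)⟩ : Re K) = e z := by
      apply Subtype.ext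
      show G ((e z).1, ((0 : unitInterval) : ℝ)) = (e z).1
      rw [show ((0 : unitInterval) : ℝ) = 0 from rfl, hG0]
    show e.symm ⟨G ((e z).1, ((0 : unitInterval) : ℝ)), hmem (z, 0)⟩ = z
    rw [this, e.symm_apply_apply]
  · intro z c hc hzy
    have h1 : (⟨G ((e z).1, (c : ℝ)), hmem (z, c)⟩ : Re K) = e y := by
      rw [← hzy]
      exact (e.apply_symm_apply _).symm
    have h2 : G ((e z).1, (c : ℝ)) = p := congrArg Subtype.val h1
    exact (hG _ (e z).2 _ c.2).2 (fun h => hc (Subtype.ext h)) h2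

/-- Affirmative answer to the question for polyhedra: pseudo-instability is a local property. Here
`Y` is a polyhedron, while `X` may be an arbitrary space (in particular a polyhedron). -/
theorem result (X Y : Type) [TopologicalSpace X] [TopologicalSpace Y] (hY : IsPolyhedron Y)
    (x : X) (y : Y) (U : Set X) (V : Set Y) (hU : U ∈ 𝓝 x) (hV : V ∈ 𝓝 y) (h : U ≃ₜ V)
    (hxy : (h ⟨x, mem_of_mem_nhds hU⟩ : Y) = y) (hx : PseudoUnstable x) :
    PseudoUnstable y := by
  obtain ⟨n, L, hL, ⟨e⟩⟩ := hY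
  obtain ⟨ι, _, K, hK, ⟨e'⟩⟩ := bary_model L hL
  exact ⟨unitInterval, inferInstance, inferInstance, inferInstance, inferInstance, 0,
    transfer hK (e.trans e') x y U V hU hV h hxy hx⟩

end Pool.Agent.Results.MP_a217de_gt.Polyhedra
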